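import Pool.Agent.H664.FH.Stm2
import Pool.Agent.H539.FH.Coer

set_option autoImplicit false

namespace Pool.Agent.H619.FH

open Finset Pool.Agent.H664.FH Pool.Agent.H539.FH

/-- `ℤ`-independence on `J` implies `ℚ`-independence on `J` -/
theorem qj_rat {n : ℕ} {J : Finset (Fin n)} {α : Fin n → ℝ} (h : QJ J α)
    (q : Fin n → ℚ) (hJ : ∀ l, l ∉ J → q l = 0) (hq : ∑ l, (q l : ℝ) * α l = 0) : q = 0 := by
  obtain ⟨b, hb⟩ := IsLocalization.exist_integer_multiples_of_finite (nonZeroDivisors ℤ) q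
  choose m hm using hb
  have hb0 : ((b : ℤ) : ℚ) ≠ 0 := by
    exact_mod_cast nonZeroDivisors.coe_ne_zero b
  have hm' : ∀ l, (m l : ℚ) = (b : ℤ) * q l := by
    intro l
    have := hm l
    rw [Algebra.smul_def] at this
    simpa using this
  have h1 : ∑ l, (m l : ℝ) * α l = 0 := by
    have : ∀ l, (m l : ℝ) = ((b : ℤ) : ℝ) * (q l : ℝ) := by
      intro l
      have := hm' l
      exact_mod_cast this
    simp only [this, mul_assoc, ← mul_sum, hq, mul_zero]
  have h0 : ∀ l, l ∉ J → m l = 0 := by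
    intro l hl
    have h3 := hm' l
    rw [hJ l hl, mul_zero] at h3
    exact_mod_cast h3
  have h2 := h.2 m h0 h1
  funext l
  have h3 := hm' l
  rw [h2] at h3
  simp only [Pi.zero_apply, Int.cast_zero] at h3
  rcases mul_eq_zero.1 h3.symm with h4 | h4
  · exact absurd h4 hb0
  · exact h4

/-- the factor -/
noncomputable def kapJ {n : ℕ} (J : Finset (Fin n)) (α : Fin n → ℝ) (i : Fin n)
    (σ : Fin n → (ℕ × ℕ) × (ℕ × ℕ)) : ℝ :=
  ∑ l, (((if l ∈ J then (if l = i then 1 else slope (σ l)) else 0) : ℚ) : ℝ) * α l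

theorem kapJ_ne {n : ℕ} {J : Finset (Fin n)} {α : Fin n → ℝ} (h : QJ J α)
    (i : Fin n) (hi : i ∈ J) (σ : Fin n → (ℕ × ℕ) × (ℕ × ℕ)) : kapJ J α i σ ≠ 0 := by
  intro h0
  have := congrFun (qj_rat h _ (fun l hl => if_neg hl) h0) i
  simp [hi] at this

theorem coerJ : Pool.Agent.H664.FH.S_coerJ := by
  intro n J α F hα hF
  -- the finite set of choices
  let P : Finset (Fin n × (Fin n → (ℕ × ℕ) × (ℕ × ℕ))) :=
    J.biUnion fun i : Fin n => (Fintype.piFinset fun l => F i l ×ˢ F i l).image fun σ => (i, σ)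
  have hPJ : ∀ x ∈ P, x.1 ∈ J := by
    intro x hx
    simp only [P, mem_biUnion, mem_image] at hx
    obtain ⟨i, hi, σ, -, rfl⟩ := hx
    exact hi
  obtain ⟨κ, hκ, hκ0⟩ : ∃ κ : ℝ, (∀ x ∈ P, κ ≤ |kapJ J α x.1 x.2|) ∧ 0 < κ := by
    have h1 : ∀ᶠ κ : ℝ in nhdsWithin 0 (Set.Ioi 0), ∀ x ∈ P, κ ≤ |kapJ J α x.1 x.2| :=
      (Filter.eventually_all_finset P).2 fun x hx => by
        filter_upwards [Ioo_mem_nhdsGT (abs_pos.2 (kapJ_ne hα x.1 (hPJ x hx) x.2))] with t ht
          using ht.2.le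
    exact (h1.and self_mem_nhdsWithin).exists
  set N : ℕ := ∑ i, ∑ l, (F i l).card with hN
  have hNle : ∀ i l, (F i l).card ≤ N := by
    intro i l
    refine le_trans ?_ (single_le_sum (f := fun i => ∑ l, (F i l).card) (fun _ _ => Nat.zero_le _) (mem_univ i))
    exact single_le_sum (f := fun l => (F i l).card) (fun _ _ => Nat.zero_le _) (mem_univ l)
  set A : ℝ := ∑ l, |α l| with hA
  have hA0 : 0 ≤ A := sum_nonneg fun _ _ => abs_nonneg _
  have hLN : 0 ≤ Real.log N := Real.log_natCast_nonneg N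
  refine ⟨(2 + Real.log N) * (1 + A / κ) + 1 / κ, by positivity, ?_⟩
  intro B c p hB hp hc hs l0 hl0
  have hLB : 0 ≤ Real.log B := Real.log_nonneg hB
  set v : Fin n → ℝ := fun l => Real.log ‖p l‖ with hv
  set M : ℝ := 2 * Real.log B + Real.log N with hM
  have hM0 : 0 ≤ M := by positivity
  obtain ⟨i, hiJ, hi⟩ := exists_max_image J (fun l => |v l|) ⟨l0, hl0⟩
  have hi' : ∀ l ∈ J, |v l| ≤ |v i| := fun l hl => hi l hl
  -- the pairs
  have hpair : ∀ l ∈ J, i ≠ l → ∃ s : (ℕ × ℕ) × (ℕ × ℕ), s.1 ∈ F i l ∧ s.2 ∈ F i l ∧ s.1 ≠ s.2 ∧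
      |((s.1.1 : ℝ) - s.2.1) * v i + ((s.1.2 : ℝ) - s.2.2) * v l| ≤ M := by
    intro l hlJ hl
    obtain ⟨e, he, e', he', hne, h⟩ := two_terms (F i l) (hF i l) B hB (c i l) (p i) (p l)
      (hp i hiJ) (hp l hlJ) (hc i hiJ l hlJ) (hs i hiJ l hlJ hl)
    refine ⟨(e, e'), he, he', hne, h.trans ?_⟩
    have : Real.log ((F i l).card : ℝ) ≤ Real.log N :=
      Real.log_le_log (by exact_mod_cast card_pos.2 (hF i l)) (by exact_mod_cast hNle i l)
    linarith
  have hgoal : |v i| ≤ M ∨ κ * |v i| ≤ |∑ l, α l * v l| + A * M := by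
    by_cases hcase : ∃ l ∈ J, ∃ (_ : i ≠ l) (s : (ℕ × ℕ) × (ℕ × ℕ)), s.1 ≠ s.2 ∧ s.1.2 = s.2.2 ∧
      |((s.1.1 : ℝ) - s.2.1) * v i + ((s.1.2 : ℝ) - s.2.2) * v l| ≤ M
    · obtain ⟨l, -, -, s, h1, h2, h3⟩ := hcase
      left
      rw [h2, sub_self, zero_mul, add_zero, abs_mul] at h3
      have h4 : s.1.1 ≠ s.2.1 := fun h4 => h1 (Prod.ext h4 h2)
      have h5 : (1 : ℝ) ≤ |(s.1.1 : ℝ) - s.2.1| := by
        have h6 : (1 : ℤ) ≤ |(s.1.1 : ℤ) - s.2.1| := Int.one_le_abs (sub_ne_zero.2 (by exact_mod_cast h4))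
        exact_mod_cast h6
      nlinarith [abs_nonneg (v i)]
    · right
      push Not at hcase
      have hch : ∀ l, ∃ s : (ℕ × ℕ) × (ℕ × ℕ), s ∈ F i l ×ˢ F i l ∧ (l ∈ J →
          |v l - ((if l = i then (1 : ℚ) else slope s : ℚ) : ℝ) * v i| ≤ M) := by
        intro l
        by_cases hlJ : l ∈ J
        · by_cases hl : l = i
          · obtain ⟨e, he⟩ := hF i l
            refine ⟨(e, e), mem_product.2 ⟨he, he⟩, fun _ => ?_⟩
            rw [if_pos hl, hl]
            simpa using hM0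
          · obtain ⟨s, h1, h2, h3, h4⟩ := hpair l hlJ (Ne.symm hl)
            refine ⟨s, mem_product.2 ⟨h1, h2⟩, fun _ => ?_⟩
            rw [if_neg hl]
            have h5 : s.1.2 ≠ s.2.2 := fun h5 =>
              absurd h4 (not_le.2 (hcase l hlJ (Ne.symm hl) s h3 h5))
            have h6 : (1 : ℝ) ≤ |(s.1.2 : ℝ) - s.2.2| := by
              have h6 : (1 : ℤ) ≤ |(s.1.2 : ℤ) - s.2.2| := Int.one_le_abs (sub_ne_zero.2 (by exact_mod_cast h5))
              exact_mod_cast h6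
            have h7 : ((s.1.2 : ℝ) - s.2.2) ≠ 0 := by
              intro h7; rw [h7, abs_zero] at h6; linarith
            have h8 : v l - ((slope s : ℚ) : ℝ) * v i =
                (((s.1.1 : ℝ) - s.2.1) * v i + ((s.1.2 : ℝ) - s.2.2) * v l) / ((s.1.2 : ℝ) - s.2.2) := by
              unfold Pool.Agent.H539.FH.slope
              push_cast
              field_simp
              ring
            rw [h8, abs_div]
            calc _ ≤ M / |(s.1.2 : ℝ) - s.2.2| := by gcongr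
              _ ≤ M / 1 := by gcongr
              _ = M := div_one M
        · obtain ⟨e, he⟩ := hF i l
          exact ⟨(e, e), mem_product.2 ⟨he, he⟩, fun h => absurd h hlJ⟩
      choose σ hσ1 hσ2 using hch
      have hmem : (i, σ) ∈ P := by
        simp only [P, mem_biUnion, mem_image, Fintype.mem_piFinset]
        exact ⟨i, hiJ, σ, hσ1, rfl⟩
      have h1 := hκ _ hmem
      have h2 : ∑ l, α l * v l = kapJ J α i σ * v i +
          ∑ l, α l * (v l - ((if l ∈ J then (if l = i then (1 : ℚ) else slope (σ l)) else 0 : ℚ) : ℝ) * v i) := by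
        unfold kapJ
        rw [sum_mul, ← sum_add_distrib]
        refine sum_congr rfl fun l _ => ?_
        ring
      have h3 : |∑ l, α l * (v l - ((if l ∈ J then (if l = i then (1 : ℚ) else slope (σ l)) else 0 : ℚ) : ℝ) * v i)| ≤ A * M := by
        refine (abs_sum_le_sum_abs _ _).trans ?_
        rw [hA, sum_mul]
        refine sum_le_sum fun l _ => ?_
        rw [abs_mul]
        by_cases hl : l ∈ J
        · rw [if_pos hl]
          exact mul_le_mul_of_nonneg_left (hσ2 l hl) (abs_nonneg _)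
        · rw [hα.1 l hl]
          simp
      have h4 : kapJ J α i σ * v i = ∑ l, α l * v l -
          ∑ l, α l * (v l - ((if l ∈ J then (if l = i then (1 : ℚ) else slope (σ l)) else 0 : ℚ) : ℝ) * v i) := by
        rw [h2]; ring
      calc κ * |v i| ≤ |kapJ J α i σ| * |v i| := by gcongr
        _ = |kapJ J α i σ * v i| := (abs_mul _ _).symm
        _ ≤ |∑ l, α l * v l| + |∑ l, α l * (v l - ((if l ∈ J then (if l = i then (1 : ℚ) else slope (σ l)) else 0 : ℚ) : ℝ) * v i)| := by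
          rw [h4]; exact abs_sub _ _
        _ ≤ |∑ l, α l * v l| + A * M := by gcongr
  refine (hi' l0 hl0).trans ?_
  have hS0 : 0 ≤ |∑ l, α l * v l| := abs_nonneg _
  have hMle : M ≤ (2 + Real.log N) * (1 + Real.log B + |∑ l, α l * v l|) := by
    rw [hM]; nlinarith [mul_nonneg hLN hLB, mul_nonneg hLN hS0]
  set Z : ℝ := 1 + Real.log B + |∑ l, α l * v l| with hZ
  have hZ0 : 0 ≤ Z := by positivity
  have hZ1 : |∑ l, α l * v l| ≤ Z := by rw [hZ]; linarith
  rcases hgoal with h | h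
  · refine h.trans (hMle.trans ?_)
    have : 0 ≤ (2 + Real.log N) * (A / κ) * Z + 1 / κ * Z := by positivity
    nlinarith
  · have h1 : |v i| ≤ |∑ l, α l * v l| / κ + A / κ * M := by
      rw [mul_comm, ← le_div_iff₀ hκ0] at h
      refine h.trans (le_of_eq ?_)
      field_simp
    refine h1.trans ?_
    have h2 : |∑ l, α l * v l| / κ ≤ 1 / κ * Z := by
      rw [div_eq_inv_mul, ← one_div]; gcongr
    have h3 : A / κ * M ≤ A / κ * ((2 + Real.log N) * Z) := by gcongr
    have h4 : 0 ≤ (2 + Real.log N) * Z := by positivity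
    nlinarith

end Pool.Agent.H619.FH
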